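import Pool.Agent.WR3.StmtsC

set_option autoImplicit false

namespace Pool.Agent.WR3.H19

open Pool.Agent.WIR Pool.Agent.WR2 Pool.Agent.WR3
open scoped BigOperators ENNReal Topology
open Filter

theorem NS_nonneg (S : Set ℕ) (x : ℝ) : 0 ≤ NS S x := by
  unfold NS
  exact Nat.cast_nonneg _

open Classical in
theorem NS_mono (S : Set ℕ) {x y : ℝ} (h : x ≤ y) : NS S x ≤ NS S y := by
  unfold NS
  have h1 : ⌊x⌋₊ ≤ ⌊y⌋₊ := Nat.floor_mono h
  exact_mod_cast Finset.card_le_card (Finset.filter_subset_filter _ (Finset.Icc_subset_Icc_right h1))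

open Classical in
theorem NS_le (S : Set ℕ) {x : ℝ} (h : 0 ≤ x) : NS S x ≤ x := by
  unfold NS
  have h1 := Finset.card_filter_le (Finset.Icc 1 ⌊x⌋₊) (fun b => b ∈ S)
  rw [Nat.card_Icc, Nat.add_sub_cancel] at h1
  calc _ ≤ ((⌊x⌋₊ : ℕ) : ℝ) := by exact_mod_cast h1
    _ ≤ x := Nat.floor_le h

theorem den (hhsd : HsdStmt) (hcvg : CvgStmt) : DenStmt := by
  intro S B hS
  obtain ⟨D, x0, hD, hx0, H⟩ := hhsd 2
  refine hcvg (NS S) (fun x y _ h => NS_mono S h) (NS_nonneg S) ⟨1, ?_⟩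
    ⟨D, max x0 (((B : ℝ) + 1) ^ 2), ?_⟩
  · intro x hx
    rw [one_mul]
    exact NS_le S (by linarith)
  · intro x hx
    refine H S B hS x ((le_max_left _ _).trans hx) ?_
    have h1 : ((B : ℝ) + 1) ^ 2 ≤ x := (le_max_right _ _).trans hx
    have hB : (1 : ℝ) ≤ (B : ℝ) + 1 := by
      have : (0 : ℝ) ≤ (B : ℝ) := Nat.cast_nonneg B
      linarith
    calc ((B : ℝ) + 1) ^ 6 ≤ ((B : ℝ) + 1) ^ 10 := pow_le_pow_right₀ hB (by norm_num)
      _ = (((B : ℝ) + 1) ^ 2) ^ 5 := by ring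
      _ ≤ x ^ 5 := pow_le_pow_left₀ (by positivity) h1 5

end Pool.Agent.WR3.H19
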