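import Pool.Agent.WR3.StmtsC
import Pool.Agent.Helper33_WR2.PDD

set_option autoImplicit false

namespace Pool.Agent.WR3.H19

open Pool.Agent.WIR Pool.Agent.WR2 Pool.Agent.WR3
open scoped BigOperators ENNReal Topology
open Filter

theorem iter_zero (τ : ℕ) : T^[τ] 0 = 0 := by
  induction τ with
  | zero => rfl
  | succ n ih => rw [Function.iterate_succ_apply', ih]; rfl

theorem pos_of_iter {a c τ : ℕ} (ha : 0 < a) (h : T^[τ] c = a) : 0 < c := by
  rcases Nat.eq_zero_or_pos c with h0 | h0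
  · rw [h0, iter_zero] at h
    omega
  · exact h0

theorem le_of_iter (pre : PreStmt) {a c τ : ℕ} (ha : 0 < a) (h : T^[τ] c = a) :
    3 ^ od τ c * c ≤ 2 ^ τ * a := by
  obtain ⟨p1, p2, -, -⟩ := pre
  exact p2 τ (od τ c) a c ((p1 _ _ _ _).2 ⟨pos_of_iter ha h, h, rfl⟩)

theorem rmu2 (pre : PreStmt) {a : ℕ} (ha : 0 < a) (y : ℝ) (c τ : ℕ) (h : T^[τ] c = a)
    (hy : (2 : ℝ) ^ τ ≤ y * 3 ^ od τ c) : 0 < c ∧ (c : ℝ) ≤ a * y := by
  refine ⟨pos_of_iter ha h, ?_⟩
  have h1 : (3 : ℝ) ^ od τ c * c ≤ 2 ^ τ * a := by exact_mod_cast le_of_iter pre ha h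
  have h3 : (0 : ℝ) < 3 ^ od τ c := by positivity
  have ha' : (0 : ℝ) ≤ a := Nat.cast_nonneg a
  have h2 : (3 : ℝ) ^ od τ c * c ≤ 3 ^ od τ c * (a * y) := by
    calc (3 : ℝ) ^ od τ c * c ≤ 2 ^ τ * a := h1
      _ ≤ (y * 3 ^ od τ c) * a := mul_le_mul_of_nonneg_right hy ha'
      _ = 3 ^ od τ c * (a * y) := by ring
  exact le_of_mul_le_mul_left h2 h3

/-- the two ways to write the differences -/
theorem diff_period {a c τ τ' : ℕ} (h : T^[τ] c = a) (h' : T^[τ'] c = a) (hle : τ ≤ τ') :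
    ∃ k, τ' = τ + k * Function.minimalPeriod T a ∧
      od τ' c = od τ c + k * od (Function.minimalPeriod T a) a := by
  obtain ⟨s, hs⟩ := Nat.exists_eq_add_of_le hle
  have hTs : T^[s] a = a := by
    have h1 := h'
    rw [hs, add_comm, Function.iterate_add_apply, h] at h1
    exact h1
  have hdvd : Function.minimalPeriod T a ∣ s := Function.IsPeriodicPt.minimalPeriod_dvd hTs
  obtain ⟨k, hk⟩ := hdvd
  refine ⟨k, by rw [hs, hk]; ring, ?_⟩
  have hp : T^[Function.minimalPeriod T a] a = a := Function.iterate_minimalPeriod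
  have h2 := (Pool.Agent.WR2.H33.od_mul (Function.minimalPeriod T a) a k hp).1
  rw [hs, add_comm τ s, Pool.Agent.WR2.H77.od_add, h, hk, mul_comm _ k, h2]

theorem rmuK (pre : PreStmt) {a : ℕ} (ha : 0 < a) : ∃ K : ℝ, 0 ≤ K ∧ ∀ (y : ℝ) (c : ℕ),
    Set.Finite {τ : ℕ | T^[τ] c = a ∧ (2 : ℝ) ^ τ ≤ y * 3 ^ od τ c} ∧
    ∀ x : ℝ, 2 ≤ x → y ≤ x ^ 2 → mu a y c ≤ K * Real.log x := by
  have hlog2 : (1 : ℝ) / 2 ≤ Real.log 2 := by
    have := Real.log_two_gt_d9
    linarith
  have hlx : ∀ x : ℝ, 2 ≤ x → (1 : ℝ) ≤ 2 * Real.log x := by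
    intro x hx
    have := Real.log_le_log (by norm_num : (0 : ℝ) < 2) hx
    linarith
  set p0 := Function.minimalPeriod T a with hp0
  set q0 := od p0 a with hq0
  rcases Nat.eq_zero_or_pos p0 with h0 | h0
  · refine ⟨2, by norm_num, fun y c => ?_⟩
    have hsub : Set.Subsingleton {τ : ℕ | T^[τ] c = a ∧ (2 : ℝ) ^ τ ≤ y * 3 ^ od τ c} := by
      intro τ hτ τ' hτ'
      rcases le_total τ τ' with h | h
      · obtain ⟨k, hk, -⟩ := diff_period hτ.1 hτ'.1 h
        rw [← hp0, h0] at hk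
        omega
      · obtain ⟨k, hk, -⟩ := diff_period hτ'.1 hτ.1 h
        rw [← hp0, h0] at hk
        omega
    refine ⟨hsub.finite, fun x hx hy => ?_⟩
    have h1 : Set.ncard {τ : ℕ | T^[τ] c = a ∧ (2 : ℝ) ^ τ ≤ y * 3 ^ od τ c} ≤ 1 :=
      (Set.ncard_le_one hsub.finite).2 fun _ h1 _ h2 => hsub h1 h2
    unfold mu
    calc ((Set.ncard {τ : ℕ | T^[τ] c = a ∧ (2 : ℝ) ^ τ ≤ y * 3 ^ od τ c} : ℕ) : ℝ) ≤ 1 := by
          exact_mod_cast h1
      _ ≤ 2 * Real.log x := hlx x hx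
  · have hR3 : 3 ^ q0 < 2 ^ p0 :=
      Pool.Agent.WR2.H33.two_pow_gt pre p0 a ha h0 Function.iterate_minimalPeriod
    set R : ℝ := 2 ^ p0 / 3 ^ q0 with hR
    have h3q : (0 : ℝ) < 3 ^ q0 := by positivity
    have hR1 : 1 < R := by
      rw [hR, one_lt_div h3q]
      exact_mod_cast hR3
    have hR0 : 0 < R := by linarith
    have hlR : 0 < Real.log R := Real.log_pos hR1
    have ha1 : (1 : ℝ) ≤ a := by exact_mod_cast ha
    have hla : 0 ≤ Real.log a := Real.log_nonneg ha1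
    refine ⟨2 + (2 * Real.log a + 2) / Real.log R, by positivity, fun y c => ?_⟩
    -- the inclusion
    by_cases hne : ∃ τ, T^[τ] c = a
    · classical
      set τ0 := Nat.find hne with hτ0
      have hT0 : T^[τ0] c = a := Nat.find_spec hne
      have hc : 0 < c := pos_of_iter ha hT0
      have key : ∀ τ, T^[τ] c = a → (2 : ℝ) ^ τ ≤ y * 3 ^ od τ c →
          ∃ k : ℕ, τ = τ0 + k * p0 ∧ (k : ℝ) ≤ Real.log (a * y) / Real.log R ∧ 0 < y ∧
            1 ≤ a * y := by
        intro τ hτ hy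
        obtain ⟨k, hk1, hk2⟩ := diff_period hT0 hτ (Nat.find_min' hne hτ)
        refine ⟨k, hk1, ?_⟩
        rw [← hp0, ← hq0] at hk2
        rw [← hp0] at hk1
        have e0 : (0 : ℝ) < 3 ^ od τ c := by positivity
        have e1 : (0 : ℝ) < 2 ^ τ := by positivity
        have hy0 : 0 < y := by
          by_contra hcon
          have : y * 3 ^ od τ c ≤ 0 := mul_nonpos_of_nonpos_of_nonneg (not_lt.1 hcon) e0.le
          linarith
        have h1 : (3 : ℝ) ^ od τ0 c * c ≤ 2 ^ τ0 * a := by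
          exact_mod_cast le_of_iter pre ha hT0
        have hc1 : (1 : ℝ) ≤ c := by exact_mod_cast hc
        have e3 : (0 : ℝ) < 3 ^ od τ0 c := by positivity
        have h2 : (3 : ℝ) ^ od τ0 c ≤ 2 ^ τ0 * a := by
          calc (3 : ℝ) ^ od τ0 c = 3 ^ od τ0 c * 1 := (mul_one _).symm
            _ ≤ 3 ^ od τ0 c * c := mul_le_mul_of_nonneg_left hc1 e3.le
            _ ≤ _ := h1
        have h4 : R ^ k ≤ a * y := by
          rw [hR, div_pow, div_le_iff₀ (by positivity)]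
          have e4 : (2 : ℝ) ^ τ = 2 ^ τ0 * (2 ^ p0) ^ k := by
            rw [hk1, pow_add, mul_comm k p0, pow_mul]
          have e5 : (3 : ℝ) ^ od τ c = 3 ^ od τ0 c * (3 ^ q0) ^ k := by
            rw [hk2, pow_add, mul_comm k q0, pow_mul]
          rw [e4, e5] at hy
          have e6 : (0 : ℝ) < 2 ^ τ0 := by positivity
          have e7 : (2 : ℝ) ^ τ0 * (2 ^ p0) ^ k ≤ 2 ^ τ0 * (a * y * (3 ^ q0) ^ k) := by
            calc (2 : ℝ) ^ τ0 * (2 ^ p0) ^ k ≤ y * (3 ^ od τ0 c * (3 ^ q0) ^ k) := hy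
              _ = 3 ^ od τ0 c * (y * (3 ^ q0) ^ k) := by ring
              _ ≤ (2 ^ τ0 * a) * (y * (3 ^ q0) ^ k) :=
                  mul_le_mul_of_nonneg_right h2 (by positivity)
              _ = _ := by ring
          exact le_of_mul_le_mul_left e7 e6
        refine ⟨?_, hy0, (one_le_pow₀ hR1.le).trans h4⟩
        rw [le_div_iff₀ hlR, ← Real.log_pow]
        exact Real.log_le_log (by positivity) h4
      set m := ⌊Real.log (a * y) / Real.log R⌋₊ with hm
      have hsub : {τ : ℕ | T^[τ] c = a ∧ (2 : ℝ) ^ τ ≤ y * 3 ^ od τ c} ⊆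
          ((Finset.range (m + 1)).image (fun k => τ0 + k * p0) : Finset ℕ) := by
        rintro τ ⟨h1, h2⟩
        obtain ⟨k, hk1, hk2, -⟩ := key τ h1 h2
        rw [Finset.mem_coe, Finset.mem_image]
        refine ⟨k, ?_, hk1.symm⟩
        rw [Finset.mem_range, Nat.lt_succ_iff]
        exact Nat.le_floor hk2
      refine ⟨(Finset.finite_toSet _).subset hsub, fun x hx hyx => ?_⟩
      unfold mu
      rcases Set.eq_empty_or_nonempty {τ : ℕ | T^[τ] c = a ∧ (2 : ℝ) ^ τ ≤ y * 3 ^ od τ c} with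
        he | ⟨τ, hτ⟩
      · rw [he, Set.ncard_empty, Nat.cast_zero]
        have := hlx x hx
        have : 0 ≤ Real.log x := by linarith
        positivity
      · obtain ⟨k, -, -, hy0, hay⟩ := key τ hτ.1 hτ.2
        have hcard : Set.ncard {τ : ℕ | T^[τ] c = a ∧ (2 : ℝ) ^ τ ≤ y * 3 ^ od τ c} ≤ m + 1 := by
          refine (Set.ncard_le_ncard hsub (Finset.finite_toSet _)).trans ?_
          rw [Set.ncard_coe_finset]
          refine Finset.card_image_le.trans ?_
          rw [Finset.card_range]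
        have hlog : 0 ≤ Real.log (a * y) := Real.log_nonneg hay
        have hm1 : (m : ℝ) ≤ Real.log (a * y) / Real.log R :=
          Nat.floor_le (div_nonneg hlog hlR.le)
        have hx0 : (0 : ℝ) < x := by linarith
        have hl1 : Real.log (a * y) ≤ Real.log a + 2 * Real.log x := by
          rw [Real.log_mul (by positivity) hy0.ne']
          have : Real.log y ≤ Real.log (x ^ 2) := Real.log_le_log hy0 hyx
          rw [Real.log_pow] at this
          push_cast at this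
          linarith
        have h1x := hlx x hx
        have hl2 : Real.log (a * y) ≤ (2 * Real.log a + 2) * Real.log x := by nlinarith
        have hl3 : Real.log (a * y) / Real.log R ≤
            (2 * Real.log a + 2) / Real.log R * Real.log x := by
          rw [div_mul_eq_mul_div]
          exact div_le_div_of_nonneg_right hl2 hlR.le
        calc ((Set.ncard {τ : ℕ | T^[τ] c = a ∧ (2 : ℝ) ^ τ ≤ y * 3 ^ od τ c} : ℕ) : ℝ)
            ≤ (m : ℝ) + 1 := by exact_mod_cast hcard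
          _ ≤ (2 * Real.log a + 2) / Real.log R * Real.log x + 2 * Real.log x := by linarith
          _ = _ := by ring
    · have he : {τ : ℕ | T^[τ] c = a ∧ (2 : ℝ) ^ τ ≤ y * 3 ^ od τ c} = ∅ :=
        Set.eq_empty_of_forall_notMem fun τ h => hne ⟨τ, h.1⟩
      refine ⟨by rw [he]; exact Set.finite_empty, fun x hx _ => ?_⟩
      unfold mu
      rw [he, Set.ncard_empty, Nat.cast_zero]
      have := hlx x hx
      have : 0 ≤ Real.log x := by linarith
      positivity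

theorem rmu (pre : PreStmt) : RmuStmt := by
  intro a ha
  obtain ⟨K, hK, HK⟩ := rmuK pre ha
  have mono : ∀ (y y' : ℝ), y ≤ y' → ∀ c, mu a y c ≤ mu a y' c := by
    intro y y' hyy c
    unfold mu
    have : Set.ncard {τ : ℕ | T^[τ] c = a ∧ (2 : ℝ) ^ τ ≤ y * 3 ^ od τ c} ≤
        Set.ncard {τ : ℕ | T^[τ] c = a ∧ (2 : ℝ) ^ τ ≤ y' * 3 ^ od τ c} := by
      refine Set.ncard_le_ncard ?_ (HK y' c).1
      rintro τ ⟨h1, h2⟩
      exact ⟨h1, h2.trans (mul_le_mul_of_nonneg_right hyy (by positivity))⟩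
    exact_mod_cast this
  have nn : ∀ (y : ℝ) (c : ℕ), 0 ≤ mu a y c := fun y c => Nat.cast_nonneg _
  refine ⟨fun y c => (HK y c).1, fun y c τ h1 h2 => rmu2 pre ha y c τ h1 h2,
    ⟨K, hK, fun x y c hx hy => (HK y c).2 x hx hy⟩, fun y y' hyy => ⟨mono y y' hyy, ?_⟩⟩
  unfold FR
  calc ∑ c ∈ Finset.Icc 1 ⌊(a : ℝ) * y⌋₊, mu a y c
      ≤ ∑ c ∈ Finset.Icc 1 ⌊(a : ℝ) * y⌋₊, mu a y' c :=
        Finset.sum_le_sum fun c _ => mono y y' hyy c
    _ ≤ ∑ c ∈ Finset.Icc 1 ⌊(a : ℝ) * y'⌋₊, mu a y' c := by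
        refine Finset.sum_le_sum_of_subset_of_nonneg ?_ fun c _ _ => nn y' c
        exact Finset.Icc_subset_Icc_right
          (Nat.floor_mono (mul_le_mul_of_nonneg_left hyy (Nat.cast_nonneg a)))

end Pool.Agent.WR3.H19
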